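import Pool.Agent.Helper16.LD.SV.Stmt
import Pool.Agent.Helper16.LD.AS.Defs

open Set Finset
open scoped Matrix

namespace Pool.AF

open Pool.SV

/-- `σ` is a representation preserving a nonempty open convex cone without lines of dimension
`n + 1`, or preserving, up to positive factors, a totally geodesic submanifold of dimension `n` of
the symmetric space of positive definite matrices. -/
def SmallAction {G : Type*} [Group G] {d : ℕ} (σ : G →* ((Fin d → ℝ) →ₗ[ℝ] (Fin d → ℝ)))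
    (n : ℕ) : Prop :=
  0 < d ∧ ((n + 1 = d ∧ ∃ C : Set (Fin d → ℝ), SharpCone σ C) ∨
    ∃ 𝔭 : Submodule ℝ (Matrix (Fin d) (Fin d) ℝ), GeodSpace 𝔭 ∧ PreservesExp σ 𝔭 ∧
      Module.finrank ℝ 𝔭 = n)

/-- The action of `Γ` on the lineality space `V` of `X` is dominated by actions on cones or
symmetric spaces of total dimension `∑ n_j ≤ dim V` (and `< dim V` if `X` is the whole space): the
elements that are bounded up to scalars in all the representations and bounded on `E / V` are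
bounded up to scalars on the quotients of an invariant flag of `V`. -/
def Dominated {E : Type*} [NormedAddCommGroup E] [NormedSpace ℝ E] (Γ : Subgroup (E ≃ᵃ[ℝ] E))
    (X : Set E) : Prop :=
  ∃ (r : ℕ) (F : ℕ → Submodule ℝ E) (k : ℕ) (d n : Fin k → ℕ)
    (σ : ∀ j, Γ →* ((Fin (d j) → ℝ) →ₗ[ℝ] (Fin (d j) → ℝ))),
    F 0 = ⊥ ∧ (∀ v, v ∈ F r ↔ ∀ x ∈ X, ∀ t : ℝ, x + t • v ∈ X) ∧
    (∀ i < r, F i ≤ F (i + 1) ∧ ∀ g ∈ Γ, ∀ v ∈ F (i + 1), g.linear v ∈ F (i + 1)) ∧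
    (∀ j, SmallAction (σ j) (n j)) ∧
    ∑ j, n j ≤ Module.finrank ℝ (F r) ∧
    (X = Set.univ → ∑ j, n j < Module.finrank ℝ (F r)) ∧
    ∀ R : ℝ, ∃ R' : ℝ, ∀ g : Γ, (∀ j, ScalBdd (σ j) R g) → AffBdd (F r) R g.1 →
      ∀ i < r, QuotBdd (F i) (F (i + 1)) R' g.1

/-- The same for some subgroup of finite index of `Γ`. -/
def VirtuallyDominated {m : ℕ} (Γ : Subgroup (Aff m)) (X : Set (EuclideanSpace ℝ (Fin m))) :
    Prop :=
  ∃ Γ₁ : Subgroup (Aff m), Γ₁ ≤ Γ ∧ Γ₁.relIndex Γ ≠ 0 ∧ Dominated Γ₁ X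

end Pool.AF
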